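import Pool.Agent.Run7.h858.CP.Basic

set_option autoImplicit false

/-! Piece L of the project CP of helper858: the normalised lift of the tangent lines. -/

namespace Run7.h547.CP

open Real Pool.Agent.H858.CP
open scoped ContDiff

theorem smooth_deriv {f : ℝ → ℝ} (h : ContDiff ℝ ∞ f) : ContDiff ℝ ∞ (deriv f) :=
  (contDiff_infty_iff_deriv.1 h).2

theorem hasD {f : ℝ → ℝ} (h : ContDiff ℝ ∞ f) (u : ℝ) : HasDerivAt f (deriv f u) u :=
  (h.differentiable (by simp) u).hasDerivAt

theorem per_deriv {f : ℝ → ℝ} (h : ∀ x, f (x + 2 * π) = f x) : ∀ x, deriv f (x + 2 * π) = deriv f x := by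
  intro x
  have h1 : (fun y => f (y + 2 * π)) = f := funext h
  have h2 := deriv_comp_add_const f (2 * π) x
  rw [← h2, h1]

theorem pL : PieceL := by
  intro a b hab
  obtain ⟨ha, hb, pa, pb, hκ, -⟩ := hab
  have ha1 := smooth_deriv ha
  have ha2 := smooth_deriv ha1
  have hb1 := smooth_deriv hb
  have hb2 := smooth_deriv hb1
  set κ : ℝ → ℝ := fun x => deriv a x * deriv (deriv b) x - deriv b x * deriv (deriv a) x with hκd
  have hκs : ContDiff ℝ ∞ κ := (ha1.mul hb2).sub (hb1.mul ha2)
  set c : ℝ → ℝ := fun u => κ u ^ (-(2 : ℝ) / 3) with hcd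
  have hcs : ContDiff ℝ ∞ c := hκs.rpow_const_of_ne fun u => (hκ u).ne'
  have hcs1 := smooth_deriv hcs
  have hcpos : ∀ u, 0 < c u := fun u => Real.rpow_pos_of_pos (hκ u) _
  have hc3 : ∀ u, c u ^ 3 * κ u ^ 2 = 1 := by
    intro u
    have h1 : c u ^ 3 = κ u ^ (-(2 : ℝ)) := by
      show (κ u ^ (-(2 : ℝ) / 3)) ^ 3 = _
      rw [← Real.rpow_natCast, ← Real.rpow_mul (hκ u).le]
      congr 1
      norm_num
    rw [h1, Real.rpow_neg (hκ u).le, Real.rpow_two]
    exact inv_mul_cancel₀ (pow_ne_zero 2 (hκ u).ne')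
  let F : ℝ → Fin 3 → ℝ := fun u i => c u * tl a b u i
  have hF : ContDiff ℝ ∞ F := by
    rw [contDiff_pi]
    intro i
    refine hcs.mul ?_
    fin_cases i
    · exact hb1.neg
    · exact ha1
    · exact (ha.mul hb1).sub (hb.mul ha1)
  have hjet : Jet3 (fun i => iteratedDeriv i F) := by
    intro i t
    show HasDerivAt (iteratedDeriv i F) (iteratedDeriv (i + 1) F t) t
    rw [iteratedDeriv_succ]
    exact (hF.differentiable_iteratedDeriv i (by exact_mod_cast WithTop.coe_lt_top _) t).hasDerivAt
  refine ⟨fun i => iteratedDeriv i F, c, hjet, fun u => ?_, fun u => ?_, hcpos, fun u i => ?_⟩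
  · -- the determinant
    have j0 := hjet 0
    have j1 := hjet 1
    simp only [iteratedDeriv_zero] at j0
    have e1 : ∀ (t : ℝ) (i : Fin 3) (g g' : ℝ → ℝ), (∀ s, tl a b s i = g s) → HasDerivAt g (g' t) t →
        iteratedDeriv 1 F t i = deriv c t * g t + c t * g' t := by
      intro t i g g' hg hg'
      have h1 : HasDerivAt (fun s => F s i) (iteratedDeriv 1 F t i) t := hasDerivAt_pi.1 (j0 t) i
      have h2 : HasDerivAt (fun s => F s i) (deriv c t * g t + c t * g' t) t := by
        have h3 : (fun s => F s i) = fun s => c s * g s := by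
          funext s; show c s * tl a b s i = c s * g s; rw [hg s]
        rw [h3]
        exact (hasD hcs t).mul hg'
      exact h1.unique h2
    have e2 : ∀ (t : ℝ) (i : Fin 3) (g g' g'' : ℝ → ℝ), (∀ s, tl a b s i = g s) →
        (∀ s, HasDerivAt g (g' s) s) → HasDerivAt g' (g'' t) t →
        iteratedDeriv 2 F t i = deriv (deriv c) t * g t + 2 * deriv c t * g' t + c t * g'' t := by
      intro t i g g' g'' hg hg' hg''
      have h1 : HasDerivAt (fun s => iteratedDeriv 1 F s i) (iteratedDeriv 2 F t i) t :=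
        hasDerivAt_pi.1 (j1 t) i
      have h2 : HasDerivAt (fun s => iteratedDeriv 1 F s i)
          ((deriv (deriv c) t * g t + deriv c t * g' t) + (deriv c t * g' t + c t * g'' t)) t := by
        have h3 : (fun s => iteratedDeriv 1 F s i) = fun s => deriv c s * g s + c s * g' s := by
          funext s; exact e1 s i g g' hg (hg' s)
        rw [h3]
        exact ((hasD hcs1 t).mul (hg' t)).add ((hasD hcs t).mul hg'')
      rw [h1.unique h2]
      ring
    -- the three components
    have g0 : ∀ s, tl a b s 0 = -deriv b s := fun s => rfl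
    have g1 : ∀ s, tl a b s 1 = deriv a s := fun s => rfl
    have g2 : ∀ s, tl a b s 2 = a s * deriv b s - b s * deriv a s := fun s => rfl
    have d0 : ∀ s, HasDerivAt (fun s => -deriv b s) ((fun s => -deriv (deriv b) s) s) s :=
      fun s => (hasD hb1 s).neg
    have d1 : ∀ s, HasDerivAt (fun s => deriv a s) ((fun s => deriv (deriv a) s) s) s := fun s => hasD ha1 s
    have d2 : ∀ s, HasDerivAt (fun s => a s * deriv b s - b s * deriv a s)
        ((fun s => a s * deriv (deriv b) s - b s * deriv (deriv a) s) s) s := by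
      intro s
      have := ((hasD ha s).mul (hasD hb1 s)).sub ((hasD hb s).mul (hasD ha1 s))
      refine this.congr_deriv ?_
      show _ = a s * deriv (deriv b) s - b s * deriv (deriv a) s
      ring
    have f0 : HasDerivAt (fun s => -deriv (deriv b) s) ((fun s => -deriv (deriv (deriv b)) s) u) u :=
      (hasD hb2 u).neg
    have f1 : HasDerivAt (fun s => deriv (deriv a) s) ((fun s => deriv (deriv (deriv a)) s) u) u :=
      hasD ha2 u
    have f2 : HasDerivAt (fun s => a s * deriv (deriv b) s - b s * deriv (deriv a) s)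
        ((fun s => κ s + a s * deriv (deriv (deriv b)) s - b s * deriv (deriv (deriv a)) s) u) u := by
      have := ((hasD ha u).mul (hasD hb2 u)).sub ((hasD hb u).mul (hasD ha2 u))
      refine this.congr_deriv ?_
      show _ = κ u + a u * deriv (deriv (deriv b)) u - b u * deriv (deriv (deriv a)) u
      simp only [hκd]
      ring
    have v0 : ∀ i, iteratedDeriv 0 F u i = c u * tl a b u i := fun i => by rw [iteratedDeriv_zero]
    have h10 := e1 u 0 _ (fun s => -deriv (deriv b) s) g0 (d0 u)
    have h11 := e1 u 1 _ (fun s => deriv (deriv a) s) g1 (d1 u)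
    have h12 := e1 u 2 _ (fun s => a s * deriv (deriv b) s - b s * deriv (deriv a) s) g2 (d2 u)
    have h20 := e2 u 0 _ (fun s => -deriv (deriv b) s) (fun s => -deriv (deriv (deriv b)) s) g0 d0 f0
    have h21 := e2 u 1 _ (fun s => deriv (deriv a) s) (fun s => deriv (deriv (deriv a)) s) g1 d1 f1
    have h22 := e2 u 2 _ (fun s => a s * deriv (deriv b) s - b s * deriv (deriv a) s)
      (fun s => κ s + a s * deriv (deriv (deriv b)) s - b s * deriv (deriv (deriv a)) s) g2 d2 f2
    show det3 (iteratedDeriv 0 F u) (iteratedDeriv 1 F u) (iteratedDeriv 2 F u) = 1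
    unfold det3
    rw [v0, v0, v0, h10, h11, h12, h20, h21, h22, g0, g1, g2, ← hc3 u]
    simp only [hκd]
    ring
  · show iteratedDeriv 0 F (u + 2 * π) = iteratedDeriv 0 F u
    rw [iteratedDeriv_zero]
    funext i
    have h1 := per_deriv pa
    have h2 := per_deriv pb
    have h3 := per_deriv h1
    have h4 := per_deriv h2
    show c (u + 2 * π) * tl a b (u + 2 * π) i = c u * tl a b u i
    have h5 : c (u + 2 * π) = c u := by
      simp only [hcd, hκd, h1, h2, h3, h4]
    rw [h5]
    simp only [tl, h1, h2, pa, pb]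
  · show iteratedDeriv 0 F u i = _
    rw [iteratedDeriv_zero]

end Run7.h547.CP
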