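import Pool.Agent.Run7.h858.CP.Basic

set_option autoImplicit false

/-! Piece W of the project CP of helper858: the curve is an ellipse. -/

namespace Run7.h547.CPW

open Real Pool.Agent.H858.CP
open scoped ContDiff

theorem two_aux (m h A B Z : ℝ) (hs : sin h ≠ 0) (h1 : cos (m - h) * A + sin (m - h) * B = Z)
    (h2 : cos (m + h) * A + sin (m + h) * B = Z) :
    cos h * A = cos m * Z ∧ cos h * B = sin m * Z := by
  rw [cos_sub, sin_sub] at h1
  rw [cos_add, sin_add] at h2
  have h3 : cos h * (cos m * A + sin m * B) = Z := by linarith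
  have h4 : sin h * (sin m * A - cos m * B) = 0 := by linarith
  have h5 : sin m * A - cos m * B = 0 := by
    rcases mul_eq_zero.1 h4 with h | h
    · exact absurd h hs
    · exact h
  have h6 := sin_sq_add_cos_sq m
  constructor
  · rw [← h3]
    linear_combination (-(cos h * A)) * h6 + (cos h * sin m) * h5
  · rw [← h3]
    linear_combination (-(cos h * B)) * h6 - (cos h * cos m) * h5

/-- solving for the coordinates of the intersection of two tangent lines -/
theorem two_lines (u t A B Z : ℝ) (ht : 0 < t) (ht2 : t < π) (h1 : cos u * A + sin u * B = Z)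
    (h2 : cos (u + t) * A + sin (u + t) * B = Z) :
    cos (t / 2) * A = cos (u + t / 2) * Z ∧ cos (t / 2) * B = sin (u + t / 2) * Z := by
  have hs : sin (t / 2) ≠ 0 := (sin_pos_of_pos_of_lt_pi (by linarith) (by linarith)).ne'
  refine two_aux (u + t / 2) (t / 2) A B Z hs ?_ ?_
  · rw [show u + t / 2 - t / 2 = u by ring]; exact h1
  · rw [show u + t / 2 + t / 2 = u + t by ring]; exact h2

/-- Cramer: a vector orthogonal to three independent vectors is zero -/
theorem orth_zero (C0 C1 C2 x : Fin 3 → ℝ) (hdet : det3 C0 C1 C2 ≠ 0) (h0 : dot C0 x = 0)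
    (h1 : dot C1 x = 0) (h2 : dot C2 x = 0) : x 0 = 0 ∧ x 1 = 0 ∧ x 2 = 0 := by
  unfold dot at h0 h1 h2
  unfold det3 at hdet
  refine ⟨?_, ?_, ?_⟩
  · refine (mul_eq_zero.1 (?_ : (C0 0 * (C1 1 * C2 2 - C1 2 * C2 1) - C0 1 * (C1 0 * C2 2 - C1 2 * C2 0) +
      C0 2 * (C1 0 * C2 1 - C1 1 * C2 0)) * x 0 = 0)).resolve_left hdet
    linear_combination (C1 1 * C2 2 - C1 2 * C2 1) * h0 + (C2 1 * C0 2 - C2 2 * C0 1) * h1 +
      (C0 1 * C1 2 - C0 2 * C1 1) * h2
  · refine (mul_eq_zero.1 (?_ : (C0 0 * (C1 1 * C2 2 - C1 2 * C2 1) - C0 1 * (C1 0 * C2 2 - C1 2 * C2 0) +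
      C0 2 * (C1 0 * C2 1 - C1 1 * C2 0)) * x 1 = 0)).resolve_left hdet
    linear_combination (C1 2 * C2 0 - C1 0 * C2 2) * h0 + (C2 2 * C0 0 - C2 0 * C0 2) * h1 +
      (C0 2 * C1 0 - C0 0 * C1 2) * h2
  · refine (mul_eq_zero.1 (?_ : (C0 0 * (C1 1 * C2 2 - C1 2 * C2 1) - C0 1 * (C1 0 * C2 2 - C1 2 * C2 0) +
      C0 2 * (C1 0 * C2 1 - C1 1 * C2 0)) * x 2 = 0)).resolve_left hdet
    linear_combination (C1 0 * C2 1 - C1 1 * C2 0) * h0 + (C2 0 * C0 1 - C2 1 * C0 0) * h1 +
      (C0 0 * C1 1 - C0 1 * C1 0) * h2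

theorem pW : PieceW := by
  intro a b hab c w C0 C1 C2 hc hw hdet hsol
  obtain ⟨ha, hb, pa, pb, hκ, hconv⟩ := hab
  let g : ℝ → Fin 3 → ℝ := fun u => ![a u, b u, 1]
  have g0 : ∀ u, g u 0 = a u := fun u => rfl
  have g1 : ∀ u, g u 1 = b u := fun u => rfl
  have g2 : ∀ u, g u 2 = 1 := fun u => rfl
  have hda : ∀ u, HasDerivAt a (deriv a u) u := fun u => (ha.differentiable (by simp) u).hasDerivAt
  have hdb : ∀ u, HasDerivAt b (deriv b u) u := fun u => (hb.differentiable (by simp) u).hasDerivAt
  set Z : ℝ → ℝ := fun u => dot C0 (g u) with hZ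
  set X : ℝ → ℝ := fun u => dot C1 (g u) with hX
  set Y : ℝ → ℝ := fun u => dot C2 (g u) with hY
  have hZ' : ∀ u, Z u = C0 0 * a u + C0 1 * b u + C0 2 := fun u => by
    simp only [hZ, dot, g0, g1, g2, mul_one]
  have hX' : ∀ u, X u = C1 0 * a u + C1 1 * b u + C1 2 := fun u => by
    simp only [hX, dot, g0, g1, g2, mul_one]
  have hY' : ∀ u, Y u = C2 0 * a u + C2 1 * b u + C2 2 := fun u => by
    simp only [hY, dot, g0, g1, g2, mul_one]
  have t0 : ∀ u, c u * (-deriv b u) = C0 0 + cos (w * u) * C1 0 + sin (w * u) * C2 0 := fun u => hsol u 0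
  have t1 : ∀ u, c u * deriv a u = C0 1 + cos (w * u) * C1 1 + sin (w * u) * C2 1 := fun u => hsol u 1
  have t2 : ∀ u, c u * (a u * deriv b u - b u * deriv a u) =
      C0 2 + cos (w * u) * C1 2 + sin (w * u) * C2 2 := fun u => hsol u 2
  -- the first equation
  have E1 : ∀ u, Z u + cos (w * u) * X u + sin (w * u) * Y u = 0 := by
    intro u
    rw [hZ', hX', hY']
    linear_combination (-(a u)) * t0 u - (b u) * t1 u - t2 u
  -- its derivative
  have dZ : ∀ u, HasDerivAt Z (C0 0 * deriv a u + C0 1 * deriv b u) u := by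
    intro u
    have h : Z = fun u => C0 0 * a u + C0 1 * b u + C0 2 := funext hZ'
    rw [h]
    exact ((((hda u).const_mul _).add ((hdb u).const_mul _)).add_const _)
  have dX : ∀ u, HasDerivAt X (C1 0 * deriv a u + C1 1 * deriv b u) u := by
    intro u
    have h : X = fun u => C1 0 * a u + C1 1 * b u + C1 2 := funext hX'
    rw [h]
    exact ((((hda u).const_mul _).add ((hdb u).const_mul _)).add_const _)
  have dY : ∀ u, HasDerivAt Y (C2 0 * deriv a u + C2 1 * deriv b u) u := by
    intro u
    have h : Y = fun u => C2 0 * a u + C2 1 * b u + C2 2 := funext hY'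
    rw [h]
    exact ((((hda u).const_mul _).add ((hdb u).const_mul _)).add_const _)
  have dcos : ∀ u, HasDerivAt (fun u => cos (w * u)) (-sin (w * u) * w) u := by
    intro u
    have h := ((hasDerivAt_id u).const_mul w).cos
    simpa [mul_one] using h
  have dsin : ∀ u, HasDerivAt (fun u => sin (w * u)) (cos (w * u) * w) u := by
    intro u
    have h := ((hasDerivAt_id u).const_mul w).sin
    simpa [mul_one] using h
  have E2 : ∀ u, -sin (w * u) * X u + cos (w * u) * Y u = 0 := by
    intro u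
    have h1 := ((dZ u).add ((dcos u).mul (dX u))).add ((dsin u).mul (dY u))
    have h2 : HasDerivAt (fun u => Z u + cos (w * u) * X u + sin (w * u) * Y u) 0 u := by
      have h3 : (fun u => Z u + cos (w * u) * X u + sin (w * u) * Y u) = fun _ => 0 := funext E1
      rw [h3]
      exact hasDerivAt_const u 0
    have h3 := h1.unique h2
    have h4 : w * (-sin (w * u) * X u + cos (w * u) * Y u) = 0 := by
      linear_combination h3 + (deriv a u) * t0 u + (deriv b u) * t1 u
    rcases mul_eq_zero.1 h4 with h | h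
    · exact absurd h hw.ne'
    · exact h
  have EX : ∀ u, X u = -(cos (w * u) * Z u) := by
    intro u
    have h6 := sin_sq_add_cos_sq (w * u)
    linear_combination (cos (w * u)) * E1 u - (sin (w * u)) * E2 u - (X u) * h6
  have EY : ∀ u, Y u = -(sin (w * u) * Z u) := by
    intro u
    have h6 := sin_sq_add_cos_sq (w * u)
    linear_combination (sin (w * u)) * E1 u + (cos (w * u)) * E2 u - (Y u) * h6
  have Zne : ∀ u, Z u ≠ 0 := by
    intro u h0
    have h1 : X u = 0 := by rw [EX, h0]; ring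
    have h2 : Y u = 0 := by rw [EY, h0]; ring
    have := (orth_zero C0 C1 C2 (g u) hdet h0 h1 h2).2.2
    rw [g2] at this
    exact one_ne_zero this
  -- two parameters with the same angle have the same point
  have same : ∀ u v, cos (w * v) = cos (w * u) → sin (w * v) = sin (w * u) → a v = a u ∧ b v = b u := by
    intro u v hcv hsv
    let x : Fin 3 → ℝ := fun i => Z u * g v i - Z v * g u i
    have hx : ∀ C : Fin 3 → ℝ, dot C x = Z u * dot C (g v) - Z v * dot C (g u) := by
      intro C; simp only [dot, x]; ring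
    have k0 : dot C0 x = 0 := by rw [hx]; show Z u * Z v - Z v * Z u = 0; ring
    have k1 : dot C1 x = 0 := by
      rw [hx]
      show Z u * X v - Z v * X u = 0
      rw [EX, EX, hcv]; ring
    have k2 : dot C2 x = 0 := by
      rw [hx]
      show Z u * Y v - Z v * Y u = 0
      rw [EY, EY, hsv]; ring
    obtain ⟨x0, x1, x2⟩ := orth_zero C0 C1 C2 x hdet k0 k1 k2
    simp only [x, g0, g1, g2] at x0 x1 x2
    have hZZ : Z v = Z u := by linarith
    rw [hZZ] at x0 x1
    constructor
    · have : Z u * (a v - a u) = 0 := by linarith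
      have := (mul_eq_zero.1 this).resolve_left (Zne u)
      linarith
    · have : Z u * (b v - b u) = 0 := by linarith
      have := (mul_eq_zero.1 this).resolve_left (Zne u)
      linarith
  -- w = 1
  have hw1 : w = 1 := by
    have h1 : w ≤ 1 := by
      by_contra hlt
      push Not at hlt
      have hq : (0 : ℝ) < 2 * π / w := by positivity
      have hq2 : 2 * π / w < 2 * π := by
        rw [div_lt_iff₀ hw]
        have := Real.pi_pos
        nlinarith
      have e : w * (2 * π / w) = w * 0 + 2 * π := by field_simp; ring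
      obtain ⟨k1, k2⟩ := same 0 (2 * π / w) (by rw [e, Real.cos_add_two_pi]) (by rw [e, Real.sin_add_two_pi])
      have := hconv 0 (2 * π / w) hq (by linarith)
      rw [k1, k2] at this
      simp at this
    have h2 : cos (w * (2 * π)) = 1 ∧ sin (w * (2 * π)) = 0 := by
      have e0 : a (2 * π) = a 0 := by have := pa 0; rwa [zero_add] at this
      have e1 : b (2 * π) = b 0 := by have := pb 0; rwa [zero_add] at this
      have z1 : Z (2 * π) = Z 0 := by rw [hZ', hZ', e0, e1]
      have x1 : X (2 * π) = X 0 := by rw [hX', hX', e0, e1]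
      rw [EX, EX, z1, mul_zero, cos_zero] at x1
      have h3 : Z 0 * (cos (w * (2 * π)) - 1) = 0 := by linarith
      have h4 := (mul_eq_zero.1 h3).resolve_left (Zne 0)
      have h5 : cos (w * (2 * π)) = 1 := by linarith
      refine ⟨h5, ?_⟩
      have h6 := sin_sq_add_cos_sq (w * (2 * π))
      rw [h5] at h6
      nlinarith
    obtain ⟨n, hn⟩ := (Real.cos_eq_one_iff _).1 h2.1
    have h3 : (n : ℝ) = w := by
      have := Real.pi_pos
      have h4 : (n : ℝ) * (2 * π) - w * (2 * π) = 0 := by linarith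
      have h5 : ((n : ℝ) - w) * (2 * π) = 0 := by linarith
      have := (mul_eq_zero.1 h5).resolve_right (by positivity)
      linarith
    have h4 : (0 : ℝ) < n := by rw [h3]; exact hw
    have h5 : 0 < n := by exact_mod_cast h4
    have h6 : (1 : ℝ) ≤ n := by exact_mod_cast h5
    linarith
  subst hw1
  simp only [one_mul] at *
  have hZc : Continuous Z := by
    rw [continuous_iff_continuousAt]
    exact fun u => (dZ u).continuousAt
  -- the sign
  have hsign : (∀ u, 0 < Z u) ∨ (∀ u, Z u < 0) := by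
    by_contra hcon
    push Not at hcon
    obtain ⟨⟨u, hu⟩, ⟨v, hv⟩⟩ := hcon
    obtain ⟨x, hx⟩ : ∃ x, Z x = 0 := by
      have := mem_range_of_exists_le_of_exists_ge hZc ⟨u, hu⟩ ⟨v, hv⟩
      exact this
    exact Zne x hx
  have main : ∀ s : ℝ, (s = 1 ∨ s = -1) → (∀ u, 0 < s * Z u) →
      ∃ ξ η ζ : Fin 3 → ℝ, det3 ξ η ζ ≠ 0 ∧
    (∀ u, 0 < dot ζ ![a u, b u, 1] ∧
      dot ξ ![a u, b u, 1] = cos u * dot ζ ![a u, b u, 1] ∧
      dot η ![a u, b u, 1] = sin u * dot ζ ![a u, b u, 1]) ∧
    (∀ u t x y : ℝ, 0 < t → t < π → OnTangent a b u x y → OnTangent a b (u + t) x y →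
      cos (t / 2) * dot ξ ![x, y, 1] = cos (u + t / 2) * dot ζ ![x, y, 1] ∧
      cos (t / 2) * dot η ![x, y, 1] = sin (u + t / 2) * dot ζ ![x, y, 1]) := by
    intro s hs hpos
    have hs0 : s ≠ 0 := by rcases hs with h | h <;> rw [h] <;> norm_num
    have hd : ∀ (r : ℝ) (C x : Fin 3 → ℝ), dot (fun i => r * C i) x = r * dot C x := by
      intro r C x; simp only [dot]; ring
    refine ⟨fun i => -s * C1 i, fun i => -s * C2 i, fun i => s * C0 i, ?_, fun u => ?_, ?_⟩
    · have h1 : det3 (fun i => -s * C1 i) (fun i => -s * C2 i) (fun i => s * C0 i) =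
          s ^ 3 * det3 C0 C1 C2 := by
        simp only [det3]; ring
      rw [h1]
      exact mul_ne_zero (pow_ne_zero 3 hs0) hdet
    · rw [hd, hd, hd]
      refine ⟨hpos u, ?_, ?_⟩
      · show -s * X u = cos u * (s * Z u)
        rw [EX]; ring
      · show -s * Y u = sin u * (s * Z u)
        rw [EY]; ring
    · intro u t x y ht ht2 h1 h2
      rw [hd, hd, hd]
      have key : ∀ v, OnTangent a b v x y →
          cos v * (-s * dot C1 ![x, y, 1]) + sin v * (-s * dot C2 ![x, y, 1]) = s * dot C0 ![x, y, 1] := by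
        intro v hv
        unfold OnTangent at hv
        have k0 : ∀ C : Fin 3 → ℝ, dot C ![x, y, 1] = C 0 * x + C 1 * y + C 2 := by
          intro C; simp [dot]
        rw [k0, k0, k0]
        linear_combination (s * x) * t0 v + (s * y) * t1 v + s * t2 v - (s * c v) * hv
      exact two_lines u t _ _ _ ht ht2 (key u h1) (key (u + t) h2)
  rcases hsign with h | h
  · exact main 1 (Or.inl rfl) fun u => by rw [one_mul]; exact h u
  · exact main (-1) (Or.inr rfl) fun u => by have := h u; linarith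

end Run7.h547.CPW
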